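import Pool.Agent.T6.H12.X.Tower

/-!
MP_b525bf_ag: resolution of the affine varieties whose function field is obtained, over independent
function fields `E i` of surfaces or over `k`, by a tower of pull-backs of tame covers of the
projective line and of Frobenius arrangements, and whose coordinate ring is integral over a
subalgebra generated by functions of the group of the tower.

The towers (`IsFrobeniusTower`) start with the compositum of the `E i` (with `k` if there are none)
and the group generated by the nonzero constants and the nonzero elements of the `E i`. The steps are:
(1) a new variable `x`; new functions are the polynomials in `x` over the `E i` of degree less than
`p`; (2) differences `a - b` of functions of the group for which `a ^ N - b ^ N` is in the group, `N`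
prime to `p`; (3) a Frobenius arrangement: a finite set `B` of new functions, for instance `1` and
`t - a 1, ..., t - a r` where `t` is a new variable and the `a i - a j` are in the group, or finitely
many affine forms in new variables such that the minimal relations between them have coefficients
in the group, or all additive polynomials with constant terms of bounded degree in new variables over
a finite field; the elements of a subset `B0` are `p`-th powers up to factors in the group, the
dimension of the span of `B` modulo the span of `B0` is the transcendence degree of the new field,
and the relations between elements of `B` modulo the span of `B0` are relations with coefficients in
the group and with at most one element of `B0`; (4) the pull-back of a tame cover `P / Q` of the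
projective line over `k`: an element `y` with `P (y) / Q (y) = f`, where `f - c` is in the group for
all critical values `c` of the cover; new functions are the `y - a`, for all points `a` over the
critical values, over infinity, and over the other constants `c` for which `f - c` is in the group.

Examples (`k` algebraically closed of characteristic `p`):

* Let `g` be an arbitrary function of two variables, or an arbitrary rational function on a surface,
or an arbitrary rational function of one variable `w`, for instance `w ^ (p ^ e)` or `w ^ p - w`.
Let `f` be given by a formula in the variables `z 1, ..., z n` in which every variable is used once,
composed of sums, products and tame rational functions of one variable (the ramification indices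
are prime to `p`). Then the hypersurface `g = f (z 1, ..., z n)` has a resolution; for instance
`g (x, y) = f 1 (z 1) + ... + f n (z n)` or `w ^ (p ^ e) = f 1 (z 1) * ... * f n (z n)` with tame
polynomials `f i` of any degree. (Let `g = t`; adjoin `t 1` with the functions `t 1 - c` and
`t - t 1 - c'`, or `t / t 1 - c'`, by (3); continue; and adjoin the `z i` with `f i (z i) = t i` by
(4).)

* The varieties whose coordinate ring is integral over an algebra generated by products of additive
polynomials (with constant terms) over an algebraic closure of the prime field, for instance the
covers `w ^ N = f 1 * ... * f r`, where the `f i` are sums of terms `c * x j ^ (p ^ l)` and constants
and `N` is prime to `p`.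

* Fibre products over a surface of families of trigonal curves `y ^ 3 + a (x) * y + b (x) = 0`,
`p > 3`, where `a`, `b` and `4 * a ^ 3 + 27 * b ^ 2` are products of polynomials in `x` of degree less
than `p` over the function field of the surface (`f = - a ^ 3 / b ^ 2` and `y = b / a * Y` give
`Y ^ 3 / (Y + 1) = f`), without any condition on the bad fibres.

The proof: (1) by compactness (an ultraproduct) the existence of schön equations for a family of
functions with coefficients in the `E i` and in `k` is reduced to a bound for the dimension of the
space generated by the logarithmic derivatives of these functions at places which are trivial on
`k`; (2) at such a place a function `y` has one of three positions relative to a finite set of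
constants, and by the Riemann-Hurwitz type identity for `P' Q - P Q'` in every case the derivatives
of the functions `y - a` are multiples of those of the functions `f - c`; (3) for Frobenius
arrangements the bound is proved by an elimination which never removes an element of `B0`; (4) the
starting library gives smooth models of schön subvarieties over products of surfaces.

helper12; built on the library of the starting files (helper214 and the helpers named there).
-/

set_option autoImplicit false

open AlgebraicGeometry CategoryTheory Pool.Agent.W558 Pool.Agent.TH188.VT Pool.Agent.T6.H12.X

universe u

namespace Pool.Agent.Results.MP_b525bf_ag.FrobeniusTowers

/-- Let `k` be an algebraically closed field of characteristic `p`, and `E 1, ..., E m`, `m ≥ 0`,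
linearly disjoint function fields of smooth projective surfaces over `k` in the field extension `K`
of `k` (or `E i = k(x i 0, x i 1)` with algebraically independent `x i j`). Let the field `K` and the
subgroup `G` of the multiplicative group of `K` be a Frobenius tower over the `E i`. Let `A` be a
finitely generated `k`-algebra with the fraction field `K` which is integral over the subalgebra
generated by finitely many elements of `G`. Then the variety `Spec A` has a resolution of
singularities. -/
theorem result (p : ℕ) [Fact p.Prime] (k K : Type u) [Field k] [IsAlgClosed k] [CharP k p]
    [Field K] [Algebra k K] (m : ℕ) (E : Fin m → IntermediateField k K)
    (hE : AreIndependentSurfaceFields E) (G : Subgroup Kˣ) (hG : IsFrobeniusTower p E ⊤ G)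
    (A : Type u) [CommRing A] [IsDomain A] [Algebra k A] [Algebra.FiniteType k A] [Algebra A K]
    [IsScalarTower k A K] [IsFractionRing A K] (S : Finset A)
    (hS : ∀ a ∈ S, ∃ u ∈ G, algebraMap A K a = u)
    (hA : ∀ a : A, IsIntegral (Algebra.adjoin k (S : Set A)) a) :
    IsResolvableVariety (X := Spec (CommRingCat.of A))
      (Spec.map (CommRingCat.ofHom (algebraMap k A))) :=
  tower_main p hE hG A S hS hA

end Pool.Agent.Results.MP_b525bf_ag.FrobeniusTowers
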