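import Pool.Agent.T6.H12.Covers

/-!
MP_b525bf_ag: resolution of the affine varieties whose function field is generated over a tame
tower over independent function fields `E i` of surfaces by `p`-th roots of sums of products of
functions on the surfaces, and whose coordinate ring is integral over a subalgebra generated by
functions of the group of the tower.

Tame towers (`IsTameTower`) are iterated fibrations, of any relative dimension, over the product of
the surfaces, for instance fibre products of superelliptic fibrations `y ^ N = f (x)`, where `N`
is prime to `p` and `f` is a product of polynomials of degree less than `p` over the function field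
of a surface; see `WildCoversOfTameTowers` for the steps and for further examples, and for
the method. On the base, the `p`-th powers of the new elements are linear combinations of products
`g t 1 * ... * g t m`, where for each `i` at most one of the `g t i ∈ E i` is not a `p`-th power; for
instance `w ^ p = g 1 + ... + g m` with arbitrary `g i ∈ E i`.

helper12; built on the library of the starting files (helper214 and the helpers named there).
-/

set_option autoImplicit false

open AlgebraicGeometry CategoryTheory Pool.Agent.W558 Pool.Agent.TH188.VT Pool.Agent.T6.H12

universe u

namespace Pool.Agent.Results.MP_b525bf_ag.InseparableCoversOfTameTowers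

/-- Let `k` be a perfect field of characteristic `p`, and `E 1, ..., E m`, `m > 0`, linearly
disjoint function fields of smooth projective surfaces over `k` in the field extension `K` of `k`
(or `E i = k(x i 0, x i 1)` with algebraically independent `x i j`). Let the intermediate field `F`
and the subgroup `G` of the multiplicative group of `K` be a tame tower over the `E i`, and suppose
that `K` is generated over `F` by elements `w 1, ..., w r` such that the `w j ^ p` are linear
combinations with coefficients in `k` of products `g t 1 * ... * g t m`, `g t i ∈ E i`, where for
each `i` at most one of the `g t i` is not a `p`-th power in `E i`. Let `A` be a finitely generated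
`k`-algebra with the fraction field `K` which is integral over the subalgebra generated by
finitely many elements of `G`. Then the variety `Spec A` has a resolution of singularities. -/
theorem result (p : ℕ) [Fact p.Prime] (k K : Type u) [Field k] [PerfectField k] [CharP k p]
    [Field K] [Algebra k K] (m : ℕ) [NeZero m] (E : Fin m → IntermediateField k K)
    (hE : AreIndependentSurfaceFields E) (F : IntermediateField k K) (G : Subgroup Kˣ)
    (hG : IsTameTower p E F G) (r o : ℕ) (w : Fin r → K) (g : Fin o → ∀ i, E i)
    (hg : ∀ i t t', t ≠ t' → (∃ b, b ^ p = g t i) ∨ ∃ b, b ^ p = g t' i)
    (hw : ∀ j, w j ^ p ∈ Submodule.span k (Set.range fun t => ∏ i, (g t i : K)))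
    (hgen : IntermediateField.adjoin F (Set.range w) = ⊤)
    (A : Type u) [CommRing A] [IsDomain A] [Algebra k A] [Algebra.FiniteType k A] [Algebra A K]
    [IsScalarTower k A K] [IsFractionRing A K] (S : Finset A)
    (hS : ∀ a ∈ S, ∃ u ∈ G, algebraMap A K a = u)
    (hA : ∀ a : A, IsIntegral (Algebra.adjoin k (S : Set A)) a) :
    IsResolvableVariety (X := Spec (CommRingCat.of A))
      (Spec.map (CommRingCat.ofHom (algebraMap k A))) :=
  tower_insep p hE hG w g hg hw hgen A S hS hA

end Pool.Agent.Results.MP_b525bf_ag.InseparableCoversOfTameTowers
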