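import Pool.Agent.T6.H74.GC.Fin

/-!
MP_b525bf_ag: resolution of arbitrary (for instance projective) varieties, which are locally
integral over algebras generated by products of linear forms over the function field of a surface.

The results of the starting files for this problem concern affine varieties. As the resolutions
which are constructed in positive characteristic are not canonical, resolutions of the affine open
subsets of a variety do not glue. Here a resolution of a variety `X` is constructed if its function
field `K` is generated over the function field `E` of a surface (or over a field `E` with log smooth
models, for instance the function field of a threefold, by Cossart and Piltant) by linear forms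
with a triangular system of relations as in the starting file `ProductsOfLinearForms`, and if
every point of `X` has an affine neighbourhood whose coordinate ring is integral over an algebra
generated by elements of the group `Γ` which is generated by the functions on the surface, the
linear forms and the sums in the system. Examples are:
* the varieties of dimension `n + 2` with a faithful action of a split torus of dimension `n`,
  which are covered by invariant affine open subsets (by a theorem of Sumihiro these are all normal
  varieties with such an action): `Γ` consists of the semi-invariant rational functions;
* the varieties with a finite morphism to `S × P`, where `S` is an arbitrary surface and `P` a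
  projective space with affine coordinates `x 1, ..., x n`, or another toric variety with the
  coordinates `x i` on the torus, such that the function field is generated over the function field
  of `S × P` by roots `y i ^ m i = c i * l i 1 * ... * l i a`, `m i` prime to `p`, of products of
  (inhomogeneous) linear forms `l i j` in the `x i` with coefficients in the function field of `S`;
  or by a root of `y ^ p = c * l 1 * ... * l a`, or of `y ^ p - y = c * l 1 * ... * l a`, with
  homogeneous linear forms `l i` and `a` prime to `p`;
* the projective varieties with homogeneous coordinates `y 0, ..., y N ∈ Γ`, for instance the
  reciprocal linear spaces over the function field of `S`.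

The proof: the starting library gives a smooth projective model `M` of `K` such that the generators
of all charts of `X` are locally monomials. After a toric modification of `M` each generator or its
inverse is regular at each point of `M`. Then the closure `Y` in `P ^ n × X` of the graph of the
birational map from `M` to `X` is an open subscheme of `M`, hence smooth, and proper over `X`.

helper74; built on the library of the starting files (helpers 558, 418, 973, 63, 417, 655, 498,
923, 22 and others).
-/

set_option autoImplicit false

open AlgebraicGeometry CategoryTheory Pool.Agent.W558 Pool.Agent.T6.H74.GC

universe u

namespace Pool.Agent.Results.MP_b525bf_ag.NonaffineVarieties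

/-- The degree modulo `p` of a product of `d s` elements of `V s` for all `s` and of the powers
`f l ^ e l`, where `f l` has the degree `deg l`. -/
def degree {p n r : ℕ} (deg : Fin r → Fin n → ZMod p) (d : Fin n → ℕ) (e : Fin r → ℕ) :
    Fin n → ZMod p :=
  fun s => d s + ∑ l, e l * deg l s

/-- Let `k` be a perfect field of characteristic `p`, `E` the function field of a smooth projective
surface over `k`, or an extension of `k` such that any finite family of nonzero elements of `E` has
its zeros and poles in a simple normal crossings divisor on some smooth projective variety with
function field `E` (`HasLogModels`), and `K` a field extension of `E` which is generated by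
finite-dimensional `E`-subspaces `V 0, ..., V (n - 1)`. Let `f 0, ..., f (r - 1)` be elements of
`K` such that each `f j` is a sum of terms, where a term is the product of a nonzero element
`c j i` of `E`, of `d j i s` nonzero elements `g j i s t` of `V s` for all `s`, and of powers of
elements `f l ≠ 0` with `l < j`. Give `f j` the degree (in `(ℤ/p)^n`) of its first term, and
suppose that the differences of the degrees of the other terms of `f j` and the degree of `f j`,
for all `j` together, are linearly independent modulo `p`. Suppose that the relations `f j = 0` are
complete: the transcendence degree of `K` over `E` is the sum of the dimensions of the `V s` minus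
the number of indices `j` with `f j = 0`. Let `Γ` be the subgroup of the multiplicative group of
`K` generated by the nonzero elements of `E`, the nonzero elements of the `V s` and the nonzero
`f l`.

Let `X` be a variety over `k`, that is, an integral scheme, separated and of finite type over `k`,
and let `φ` be a `k`-linear isomorphism of the function field of `X` and `K`. Suppose that every
point of `X` has an affine open neighbourhood `U` such that all functions on `U` are integral over
the subalgebra generated by finitely many functions on `U` which are elements of `Γ`. Then `X` has a
resolution of singularities: there is a proper morphism `Y ⟶ X`, where `Y` is an integral scheme,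
smooth over `k`, which is an isomorphism over a dense open subset of `X`. -/
theorem result (p : ℕ) [Fact p.Prime] (k E K : Type u) [Field k] [PerfectField k] [CharP k p]
    [Field E] [Algebra k E] (hE : (Algebra.trdeg k E = 2 ∧ HasModel k E) ∨ HasLogModels k E)
    [Field K] [Algebra E K] [Algebra k K] [IsScalarTower k E K]
    (n : ℕ) (V : Fin n → Submodule E K) [∀ s, FiniteDimensional E (V s)]
    (hgen : IntermediateField.adjoin E (⋃ s, (V s : Set K)) = ⊤)
    (r : ℕ) (ι : Fin r → Type) [∀ j, Fintype (ι j)] (i₀ : ∀ j, ι j)
    (c : ∀ j, ι j → E) (hc : ∀ j i, c j i ≠ 0) (d : ∀ j, ι j → Fin n → ℕ)
    (g : ∀ j i s, Fin (d j i s) → K) (hgV : ∀ j i s t, g j i s t ∈ V s)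
    (hg0 : ∀ j i s t, g j i s t ≠ 0) (e : ∀ j, ι j → Fin r → ℕ) (f : Fin r → K)
    (he : ∀ j i l, e j i l ≠ 0 → l < j ∧ f l ≠ 0)
    (hf : ∀ j, f j = ∑ i, algebraMap E K (c j i) * ((∏ s, ∏ t, g j i s t) * ∏ l, f l ^ e j i l))
    (deg : Fin r → Fin n → ZMod p)
    (hdeg : ∀ j, deg j = degree deg (d j (i₀ j)) (e j (i₀ j)))
    (hind : LinearIndependent (ZMod p) fun q : (j : Fin r) × {i : ι j // i ≠ i₀ j} =>
      degree deg (d q.1 q.2) (e q.1 q.2) - deg q.1)
    (htr : Algebra.trdeg E K + (Nat.card {j // f j = 0} : Cardinal.{u}) =
      ((∑ s, Module.finrank E (V s) : ℕ) : Cardinal.{u}))
    (X : Scheme.{u}) (h : X ⟶ Spec (CommRingCat.of k)) [AlgebraicGeometry.IsIntegral X]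
    [IsSeparated h] [LocallyOfFiniteType h] [QuasiCompact h]
    (φ : X.functionField ≃+* K) (hφ : IsLinear h φ)
    (hX : ∀ x : X, ∃ U : X.Opens, IsAffineOpen U ∧ x ∈ U ∧ ∃ S : Finset Kˣ,
      (∀ u ∈ S, u ∈ Subgroup.closure {x : Kˣ | (∃ b, algebraMap E K b = x) ∨
        (∃ s, (x : K) ∈ V s) ∨ ∃ l, f l = x}) ∧
      (∀ u ∈ S, (u : K) ∈ functionsOn φ U) ∧
      ∀ y ∈ functionsOn φ U, _root_.IsIntegral (Algebra.adjoin k (Units.val '' (S : Set Kˣ))) y) :
    IsResolvableVariety h :=
  plf_global p k E K hE n V hgen r ι i₀ c hc d g hgV hg0 e f he hf deg hdeg hind htr X h φ hφ hX

end Pool.Agent.Results.MP_b525bf_ag.NonaffineVarieties
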