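import Pool.Agent.T6.H12.Covers

/-!
MP_b525bf_ag: resolution of the affine varieties whose function field is a composite of a tame
tower over independent function fields `E i` of surfaces and of Artin-Schreier extensions given by
arbitrary functions on the surfaces, and whose coordinate ring is integral over a subalgebra
generated by functions of the group of the tower.

Tame towers (`IsTameTower`) are iterated fibrations, of any relative dimension, over the product of
the surfaces. The steps are: (1) a new variable `x`; admissible functions are all polynomials in
`x` over the `E i` of degree less than `p`; (2) systems of sums of products of linear forms, of
admissible functions of the field below, and of preceding sums, with degrees independent modulo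
`p`; the linear forms may have variable coefficients, if the minimal relations between them have
admissible coefficients (for instance `x - a` and `x - b` where `a - b` is admissible); (3)
differences `a - b` of admissible functions for which `a ^ N - b ^ N` is admissible, `N` prime
to `p`.

Examples for step (1) followed by step (2): the superelliptic fibrations `y ^ N = f (x)` over a
surface, where `N` is prime to `p` and `f` is a product of polynomials of degree less than `p` over
the function field of the surface, in particular all elliptic fibrations in Weierstrass form
(`p > 3`) and hyperelliptic fibrations of genus `g` with `p > 2 g + 2`, without any condition on
the bad fibres; their fibre products over the surface, and over independent surfaces; the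
hypersurfaces `f 1 (x 1) * y 1 ^ N 1 + ... + f n (x n) * y n ^ N n = 0`; the Artin-Schreier covers
`z ^ p - z = f (x) * y ^ b`, `b` prime to `p`. By step (3) the functions `a (x) + b (x) * y` on a
superelliptic curve are admissible if the irreducible factors of `a ^ N - (- b) ^ N * f` have
degrees less than `p`. An example for several steps: the families of elliptic curves
`y ^ 2 = x 2 * (x 2 - 1) * (x 2 - a (x 1))`, where `a` is a quotient of polynomials of degree less
than `p` over the function field of the surface.

The proof: (1) by compactness (an ultraproduct) the existence of schön equations for a family of
functions with coefficients in the `E i` is reduced to a bound for the dimension of the space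
generated by the logarithmic derivatives of these functions at places with values in algebraically
closed fields; (2) for polynomials of degree less than `p` the bound is proved with a
nonarchimedean theorem of Rolle, by adding all their derivatives to the family; (3) for the other
steps the bound is proved by linear algebra (a triangular system of relations whose
independence comes from the independence of the degrees modulo `p`); (4) the starting library gives
smooth models of Artin-Schreier covers of schön subvarieties over products of surfaces.

helper12; built on the library of the starting files (helper214 and the helpers named there).
-/

set_option autoImplicit false

open AlgebraicGeometry CategoryTheory Pool.Agent.W558 Pool.Agent.TH188.VT Pool.Agent.T6.H12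

universe u

namespace Pool.Agent.Results.MP_b525bf_ag.WildCoversOfTameTowers

/-- Let `k` be a perfect field of characteristic `p`, and `E 1, ..., E m`, `m > 0`, linearly
disjoint function fields of smooth projective surfaces over `k` in the field extension `K` of `k`
(or `E i = k(x i 0, x i 1)` with algebraically independent `x i j`). Let the intermediate field `F`
and the subgroup `G` of the multiplicative group of `K` be a tame tower over the `E i`, and suppose
that `K` is generated over `F` by elements `w 1, ..., w r` such that the `w j ^ p - w j` are linear
combinations with integral coefficients of functions `g i ∈ E i`. Let `A` be a finitely generated
`k`-algebra with the fraction field `K` which is integral over the subalgebra generated by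
finitely many elements of `G`. Then the variety `Spec A` has a resolution of singularities. -/
theorem result (p : ℕ) [Fact p.Prime] (k K : Type u) [Field k] [PerfectField k] [CharP k p]
    [Field K] [Algebra k K] (m : ℕ) [NeZero m] (E : Fin m → IntermediateField k K)
    (hE : AreIndependentSurfaceFields E) (F : IntermediateField k K) (G : Subgroup Kˣ)
    (hG : IsTameTower p E F G) (r : ℕ) (w : Fin r → K) (g : ∀ i, E i)
    (hw : ∀ j, w j ^ p - w j ∈ AddSubgroup.closure (Set.range fun i => (g i : K)))
    (hgen : IntermediateField.adjoin F (Set.range w) = ⊤)
    (A : Type u) [CommRing A] [IsDomain A] [Algebra k A] [Algebra.FiniteType k A] [Algebra A K]
    [IsScalarTower k A K] [IsFractionRing A K] (S : Finset A)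
    (hS : ∀ a ∈ S, ∃ u ∈ G, algebraMap A K a = u)
    (hA : ∀ a : A, IsIntegral (Algebra.adjoin k (S : Set A)) a) :
    IsResolvableVariety (X := Spec (CommRingCat.of A))
      (Spec.map (CommRingCat.ofHom (algebraMap k A))) :=
  tower_wild p hE hG w g hw hgen A S hS hA

end Pool.Agent.Results.MP_b525bf_ag.WildCoversOfTameTowers
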